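import Pool.Agent.Lib.helper21.ProdInter

namespace Pool.Agent.Results.MP_57f2ab_co.AllRealised

open Pool.Agent.Lib.Helper21.ProdInter

universe u v

theorem result (Q : Type v) [Infinite Q] (X : Set ℕ+) (h1 : 1 ∈ X) :
    ∃ (S : Type u) (_ : Semigroup S) (A : Q → Set S), (Set.range A).Infinite ∧ H A = X :=
  mem_HQ Q X h1

end Pool.Agent.Results.MP_57f2ab_co.AllRealised
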